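import Pool.Agent.X286.Ab.Conv

/-!
# Triangle-abundance of families of graphs (MP_02fb88_co, Q1: true)

A family of finite graphs (finite or infinite) is triangle-abundant if and only if one of its members
is a triangle-abundant graph.

Proof.  Suppose that no member `F` is triangle-abundant: for every `c` there are graphs with
`θ n ^ 2` edge-disjoint triangles, `θ < 1`, in which the density of homomorphisms of `F` is at most
`θ ^ c`.  Densities are multiplicative for tensor products and so is the proportion of edge-disjoint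
triangles, hence products of suitable tensor powers serve finitely many `F` at the same time.
Multiplying with a tensor power of the triangle makes the density of edges at most `θ ^ (1/11)`,
which settles all `F` with a matching of size `11 c`.  A graph `F` without such a matching has a
vertex cover of size at most `22 c`; identifying the vertices outside of the cover with equal
neighbourhoods we obtain one of finitely many graphs `F'`, which is not triangle-abundant because
`t(F') ^ |F| ≤ t(F) ≤ t(F')` (Jensen).  Finally blow-ups give arbitrarily large graphs.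
-/

set_option autoImplicit false

namespace Pool.Agent.Results.MP_02fb88_co.FamiliesReduceToMembers

open Finset Pool.Agent.X286.Ab

/-- `F` is a triangle-abundant graph. -/
def GraphAbundant {k : ℕ} (F : SimpleGraph (Fin k)) : Prop :=
  ∃ C : ℝ, 0 < C ∧ ∀ ε : ℝ, 0 < ε → ε < 1 → ∃ N : ℕ, ∀ (V : Type) [Finite V]
    (G : SimpleGraph V), N ≤ Nat.card V → Far ε G →
      ε ^ C * (Nat.card V : ℝ) ^ k ≤ copies F G

/-- `G` contains at least `ε n ^ 2` pairwise edge-disjoint triangles. -/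
def ManyTriangles {V : Type} (ε : ℝ) (G : SimpleGraph V) : Prop :=
  ∃ T : Finset (Finset V), (∀ t ∈ T, G.IsNClique 3 t) ∧
    (∀ t ∈ T, ∀ t' ∈ T, t ≠ t' → ∀ a b : V, a ≠ b → ¬ (a ∈ t ∧ b ∈ t ∧ a ∈ t' ∧ b ∈ t')) ∧
    ε * (Nat.card V : ℝ) ^ 2 ≤ #T

/-- The family `𝓕` is triangle-abundant. -/
def FamilyAbundant (𝓕 : Set (Σ k : ℕ, SimpleGraph (Fin k))) : Prop :=
  ∃ C : ℝ, 0 < C ∧ ∀ ε : ℝ, 0 < ε → ε < 1 → ∃ N : ℕ, ∀ (V : Type) [Finite V]
    (G : SimpleGraph V), N ≤ Nat.card V → ManyTriangles ε G →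
      ∃ F ∈ 𝓕, ε ^ C * (Nat.card V : ℝ) ^ F.1 ≤ copies F.2 G

theorem far_half {V : Type} [Finite V] [Nonempty V] {G : SimpleGraph V} {ε : ℝ} (h : Far ε G) :
    ε ≤ 1 / 2 := by
  classical
  have := Fintype.ofFinite V
  have hV := card_pos_real (V := V)
  by_contra hcon
  push Not at hcon
  apply h G.edgeSet subset_rfl
  · have h1 : G.edgeSet.ncard ≤ (Fintype.card V).choose 2 := by
      rw [Set.ncard_eq_toFinset_card']
      exact G.card_edgeFinset_le_card_choose_two
    have h2 : 2 * (Fintype.card V).choose 2 ≤ Fintype.card V * Fintype.card V := by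
      rw [Nat.choose_two_right]
      refine (Nat.mul_div_le _ _).trans ?_
      exact Nat.mul_le_mul_left _ (Nat.sub_le _ _)
    have h3 : (2 : ℝ) * G.edgeSet.ncard ≤ (Nat.card V : ℝ) * Nat.card V := by
      rw [Nat.card_eq_fintype_card]
      have : 2 * G.edgeSet.ncard ≤ Fintype.card V * Fintype.card V := by omega
      exact_mod_cast this
    nlinarith [mul_pos hV hV]
  · intro t ht
    obtain ⟨a, b, c, hab, _, _, rfl⟩ := card_eq_three.1 ht.card_eq
    have := ht.isClique (show a ∈ (({a, b, c} : Finset V) : Set V) by simp)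
      (show b ∈ (({a, b, c} : Finset V) : Set V) by simp) hab
    rw [SimpleGraph.deleteEdges_adj] at this
    exact this.2 this.1

/-- a graph which is not triangle-abundant is bad -/
theorem bad_of {k : ℕ} (F : SimpleGraph (Fin k)) (h : ¬ GraphAbundant F) : Bad F := by
  intro c
  obtain ⟨q, hq⟩ : ∃ q : ℕ, ((k : ℝ) ^ k + 1) ≤ 2 ^ q := by
    obtain ⟨q, hq⟩ := pow_unbounded_of_one_lt ((k : ℝ) ^ k + 1) (show (1 : ℝ) < 2 by norm_num)
    exact ⟨q, hq.le⟩
  obtain ⟨e, he⟩ : ∃ e : ℕ, e = 4 * c + q + 1 := ⟨_, rfl⟩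
  unfold GraphAbundant at h
  push Not at h
  obtain ⟨ε, h0, h1, H⟩ := h (e : ℝ) (by rw [he]; positivity)
  obtain ⟨N, hN⟩ : ∃ N : ℕ, (k : ℝ) ^ 2 / ε ^ e ≤ N := exists_nat_ge _
  obtain ⟨V, hfin, G, hcard, hfar, hcop⟩ := H (N + 1)
  have hne : Nonempty V := by
    by_contra hc
    rw [not_nonempty_iff] at hc
    rw [Nat.card_of_isEmpty] at hcard
    omega
  rw [Real.rpow_natCast] at hcop
  have hhalf := far_half hfar
  refine ⟨V, hfin, hne, G, ε / 6, by positivity, by linarith, far_pack G ε hfar, ?_⟩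
  have hε : 0 < ε ^ e := by positivity
  have hn : (k : ℝ) ^ 2 ≤ ε ^ e * Nat.card V := by
    rw [div_le_iff₀ hε] at hN
    have : (N : ℝ) ≤ Nat.card V := by
      have h3 : N ≤ Nat.card V := by omega
      exact_mod_cast h3
    nlinarith
  have h2 := hd_le_copies F G (ε ^ e) hcop.le hn
  have h4 : ε ^ 4 ≤ ε / 6 := by
    have : ε ^ 2 ≤ 1 / 4 := by nlinarith
    have h5 : ε ^ 3 ≤ 1 / 8 := by
      have : ε ^ 3 = ε * ε ^ 2 := by ring
      nlinarith [sq_nonneg ε]
    have : ε ^ 4 = ε * ε ^ 3 := by ring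
    nlinarith [pow_pos h0 3]
  calc hd F G ≤ ((k : ℝ) ^ k + 1) * ε ^ e := h2
    _ ≤ 2 ^ q * ε ^ e := by gcongr
    _ = (2 * ε) ^ q * ε * (ε ^ 4) ^ c := by rw [he, mul_pow]; ring
    _ ≤ 1 * 1 * (ε / 6) ^ c := by
        gcongr
        exact pow_le_one₀ (by positivity) (by linarith)
    _ = (ε / 6) ^ c := by ring

theorem pack_many {V : Type} [Finite V] {G : SimpleGraph V} {θ : ℝ} (h : Pack G θ) :
    ManyTriangles θ G := by
  classical
  obtain ⟨I, _, tri, h1, h2, h3⟩ := h
  have := Fintype.ofFinite I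
  have hinj : ∀ a, Function.Injective (tri a) := fun a i j hij => tri_inj h1 hij
  have hmem : ∀ a b u v, u ≠ v → u ∈ univ.image (tri a) → v ∈ univ.image (tri a) →
      u ∈ univ.image (tri b) → v ∈ univ.image (tri b) → a = b := by
    intro a b u v huv hu hv hu' hv'
    obtain ⟨i, _, rfl⟩ := mem_image.1 hu
    obtain ⟨j, _, rfl⟩ := mem_image.1 hv
    obtain ⟨i', _, hi'⟩ := mem_image.1 hu'
    obtain ⟨j', _, hj'⟩ := mem_image.1 hv'
    exact h2 a b i j i' j' (fun hc => huv (by rw [hc])) hi'.symm hj'.symm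
  refine ⟨univ.image (fun a => univ.image (tri a)), ?_, ?_, ?_⟩
  · intro t ht
    obtain ⟨a, _, rfl⟩ := mem_image.1 ht
    rw [SimpleGraph.isNClique_iff]
    constructor
    · intro u hu v hv huv
      rw [mem_coe, mem_image] at hu hv
      obtain ⟨i, _, rfl⟩ := hu
      obtain ⟨j, _, rfl⟩ := hv
      exact h1 a i j (fun hc => huv (by rw [hc]))
    · rw [card_image_of_injective _ (hinj a), card_univ, Fintype.card_fin]
  · intro t ht t' ht' hne u v huv hc
    obtain ⟨a, _, rfl⟩ := mem_image.1 ht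
    obtain ⟨b, _, rfl⟩ := mem_image.1 ht'
    apply hne
    rw [hmem a b u v huv hc.1 hc.2.1 hc.2.2.1 hc.2.2.2]
  · have hI : Function.Injective (fun a => univ.image (tri a)) := by
      intro a b hab
      have hab' : univ.image (tri a) = univ.image (tri b) := hab
      have e0 : tri a 0 ∈ univ.image (tri a) := mem_image_of_mem _ (mem_univ _)
      have e1 : tri a 1 ∈ univ.image (tri a) := mem_image_of_mem _ (mem_univ _)
      exact hmem a b (tri a 0) (tri a 1) (h1 a 0 1 (by decide)).ne e0 e1 (hab' ▸ e0) (hab' ▸ e1)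
    rw [card_image_of_injective _ hI, card_univ, ← Nat.card_eq_fintype_card]
    exact h3

/-- many edge-disjoint triangles: far from triangle-free -/
theorem many_far {V : Type} [Finite V] {G : SimpleGraph V} {ε : ℝ} (h : ManyTriangles ε G) :
    Far ε G := by
  classical
  intro D hDG hD hfree
  obtain ⟨T, h1, h2, h3⟩ := h
  have hex : ∀ t : {t // t ∈ T}, ∃ p : V × V, p.1 ≠ p.2 ∧ p.1 ∈ t.1 ∧ p.2 ∈ t.1 ∧ s(p.1, p.2) ∈ D := by
    rintro ⟨t, ht⟩
    by_contra hcon
    push Not at hcon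
    apply hfree t
    rw [SimpleGraph.isNClique_iff]
    refine ⟨?_, (h1 t ht).card_eq⟩
    intro a ha b hb hab
    rw [SimpleGraph.deleteEdges_adj]
    exact ⟨(h1 t ht).isClique ha hb hab, hcon (a, b) hab ha hb⟩
  choose p hp1 hp2 hp3 hp4 using hex
  have h4 : Nat.card {t // t ∈ T} ≤ Nat.card D := by
    apply Nat.card_le_card_of_injective
      (fun t => (⟨s((p t).1, (p t).2), hp4 t⟩ : D))
    intro t t' htt
    have h5 : s((p t).1, (p t).2) = s((p t').1, (p t').2) := congrArg Subtype.val htt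
    apply Subtype.ext
    by_contra hne
    rw [Sym2.eq_iff] at h5
    rcases h5 with ⟨e1, e2⟩ | ⟨e1, e2⟩
    · exact h2 t.1 t.2 t'.1 t'.2 hne _ _ (hp1 t) ⟨hp2 t, hp3 t, e1 ▸ hp2 t', e2 ▸ hp3 t'⟩
    · exact h2 t.1 t.2 t'.1 t'.2 hne _ _ (hp1 t) ⟨hp2 t, hp3 t, e1 ▸ hp3 t', e2 ▸ hp2 t'⟩
  rw [Nat.card_eq_fintype_card, Fintype.card_coe] at h4
  have h5 : Nat.card D = D.ncard := rfl
  rw [h5] at h4
  have h6 : (#T : ℝ) ≤ D.ncard := by exact_mod_cast h4
  linarith

/-- **Q1.** -/
theorem result (𝓕 : Set (Σ k : ℕ, SimpleGraph (Fin k))) :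
    FamilyAbundant 𝓕 ↔ ∃ F ∈ 𝓕, GraphAbundant F.2 := by
  constructor
  · intro h
    by_contra hcon
    push Not at hcon
    obtain ⟨C, hC, h⟩ := h
    obtain ⟨c, hcC⟩ := exists_nat_gt C
    obtain ⟨V, _, _, G, θ, h0, h1, hP, hG⟩ := all_bad 𝓕 (fun F hF => bad_of F.2 (hcon F hF)) c
    obtain ⟨N, hN⟩ := h θ h0 h1
    have hne : NeZero (N + 1) := ⟨by omega⟩
    have hcard : N ≤ Nat.card (V × ZMod (N + 1)) := by
      rw [Nat.card_prod, Nat.card_zmod]
      have : 0 < Nat.card V := Nat.card_pos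
      nlinarith
    obtain ⟨F, hF, hle⟩ := hN (V × ZMod (N + 1)) (bl G (ZMod (N + 1))) hcard
      (pack_many (pack_bl hP (N + 1)))
    have hV := card_pos_real (V := V × ZMod (N + 1))
    have h2 : (copies F.2 (bl G (ZMod (N + 1))) : ℝ) ≤
        θ ^ c * (Nat.card (V × ZMod (N + 1)) : ℝ) ^ F.1 := by
      calc (copies F.2 (bl G (ZMod (N + 1))) : ℝ) ≤ hc F.2 (bl G (ZMod (N + 1))) := by
            exact_mod_cast copies_le F.2 (bl G (ZMod (N + 1)))
        _ = hd F.2 (bl G (ZMod (N + 1))) * (Nat.card (V × ZMod (N + 1)) : ℝ) ^ F.1 := by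
            unfold hd
            have : Nat.card (Fin F.1) = F.1 := by simp
            rw [this, div_mul_cancel₀ _ (by positivity)]
        _ ≤ θ ^ c * (Nat.card (V × ZMod (N + 1)) : ℝ) ^ F.1 := by
            gcongr
            rw [hd_bl]
            exact hG F hF
    have h3 : θ ^ C ≤ θ ^ c := by
      have h4 : (0 : ℝ) < (Nat.card (V × ZMod (N + 1)) : ℝ) ^ F.1 := by positivity
      exact le_of_mul_le_mul_right (hle.trans h2) h4
    have h4 : θ ^ (c : ℝ) < θ ^ C := Real.rpow_lt_rpow_of_exponent_gt h0 h1 hcC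
    rw [Real.rpow_natCast] at h4
    linarith
  · rintro ⟨F, hF, C, hC, h⟩
    refine ⟨C, hC, fun ε h0 h1 => ?_⟩
    obtain ⟨N, hN⟩ := h ε h0 h1
    exact ⟨N, fun V _ G hcard hT => ⟨F, hF, hN V G hcard (many_far hT)⟩⟩

end Pool.Agent.Results.MP_02fb88_co.FamiliesReduceToMembers
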